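import Pool.Agent.Helper74.Perm.Main

/-!
# Q1: no nontrivial lattice identity holds in all `Reg(e)`, `e` a finite strict ordering
-/

namespace Pool.Agent.Results.MP_5c7113_al.NoLatticeIdentity

open Pool.Agent.Helper74.Perm

universe u

/-- No lattice identity `s = t` that fails in some lattice holds in the lattice `Reg(e)` for every
finite strict ordering `e`. -/
theorem result : ¬ ∃ s t : LatTerm,
    (∃ (L : Type u) (_ : Lattice L) (v : ℕ → L), s.eval v ≠ t.eval v) ∧
      ∀ (E : Type) [Finite E] (e : StrictOrdering E) (v : ℕ → Reg e), s.eval v = t.eval v := by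
  rintro ⟨s, t, ⟨L, _, v, hne⟩, h⟩
  apply hne
  have key : ∀ s t : LatTerm,
      (∀ (E : Type) [Finite E] (e : StrictOrdering E) (v : ℕ → Reg e), s.eval v = t.eval v) →
      LeAll.{u} s t := by
    intro s t h
    by_contra hc
    obtain ⟨E, hE, e, w, hw⟩ := refute s t hc
    exact hw (h E e w).le
  exact le_antisymm (key s t h L v) (key t s (fun E _ e w => (h E e w).symm) L v)

end Pool.Agent.Results.MP_5c7113_al.NoLatticeIdentity
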