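import Pool.Agent.Helper74.Perm.Ortho

/-!
# Q2: a nontrivial ortholattice identity holds in all `Reg(e)`, `e` a finite strict ordering
-/

namespace Pool.Agent.Results.MP_5c7113_al.OrthoIdentity

open Pool.Agent.Helper74.Perm

universe u

/-- the ortholattice term `(x_0 ∨ x_1) ∧ (x_0 ∨ x_1ᶜ) ∧ (x_0ᶜ ∨ x_1) ∧ (x_0ᶜ ∨ x_1ᶜ)` -/
def fourClause : OrthoTerm :=
  .inf (.inf (.inf (.sup (.var 0) (.var 1)) (.sup (.var 0) (.perp (.var 1))))
    (.sup (.perp (.var 0)) (.var 1))) (.sup (.perp (.var 0)) (.perp (.var 1)))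

/-- The ortholattice identity `fourClause = 0` holds in the ortholattice `Reg(e)` for every finite
strict ordering `e`, and it is nontrivial: it fails in some ortholattice. -/
theorem result :
    (∀ (E : Type u) [Finite E] (e : StrictOrdering E) (v : ℕ → Reg e),
      fourClause.eval v = OrthoTerm.zero.eval v) ∧
    ∃ (L : Type) (_ : Ortholattice L) (v : ℕ → L),
      fourClause.eval v ≠ OrthoTerm.zero.eval v := by
  constructor
  · intro E _ e v
    exact four_clause e (v 0) (v 1)
  · refine ⟨MO2, inferInstance, fun n => if n = 0 then MO2.a else MO2.b, ?_⟩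
    exact MO2.ne

end Pool.Agent.Results.MP_5c7113_al.OrthoIdentity
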